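import Pool.Agent.H90.EH.Targets

/-! Module BOX of the board hst_modules (MP_e3a811_co). -/

set_option autoImplicit false

namespace Pool.Agent.H65.EH

open Pool.Agent.H90.EH
open Finset
open scoped Classical

section

variable {V : Type} [AddCommGroup V] [Module ℚ V]

/-- the half-open condition for the coordinate `t` with the sign of `r` -/
def HC (t r : ℚ) : Prop := 0 < t ∨ (t = 0 ∧ 0 < r)

/-- the box condition -/
def BC (t r : ℚ) : Prop := (0 < r → 0 ≤ t ∧ t < 1) ∧ (r < 0 → 0 < t ∧ t ≤ 1)

theorem HC_nonneg {t r : ℚ} (h : HC t r) : 0 ≤ t := by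
  rcases h with h | h
  · exact h.le
  · exact h.1.ge

theorem BC_HC {t r : ℚ} (hr : r ≠ 0) (h : BC t r) : HC t r := by
  rcases lt_or_gt_of_ne hr with h1 | h1
  · exact Or.inl (h.2 h1).1
  · rcases (h.1 h1).1.lt_or_eq with h2 | h2
    · exact Or.inl h2
    · exact Or.inr ⟨h2.symm, h1⟩

theorem BC_iff {t r : ℚ} (hr : r ≠ 0) : BC t r ↔ HC t r ∧ ¬ HC (t - 1) r := by
  constructor
  · intro h
    refine ⟨BC_HC hr h, ?_⟩
    rintro (h2 | h2)
    · rcases lt_or_gt_of_ne hr with h1 | h1
      · linarith [(h.2 h1).2]
      · linarith [(h.1 h1).2]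
    · linarith [(h.1 h2.2).2, h2.1]
  · rintro ⟨h1, h2⟩
    constructor
    · intro hr'
      refine ⟨HC_nonneg h1, ?_⟩
      by_contra hcon
      push Not at hcon
      apply h2
      rcases hcon.lt_or_eq with h3 | h3
      · exact Or.inl (by linarith)
      · exact Or.inr ⟨by linarith, hr'⟩
    · intro hr'
      refine ⟨?_, ?_⟩
      · rcases h1 with h1 | h1
        · exact h1
        · linarith [h1.2]
      · by_contra hcon
        push Not at hcon
        exact h2 (Or.inl (by linarith))

/-- mixed conditions -/
def SC (B : Finset V) (q : V) (C : Finset V) : Set V :=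
  {y | y ∈ Sp B ∧ ∀ b ∈ B, if b ∈ C then BC (co B y b) (co B q b) else HC (co B y b) (co B q b)}

theorem SC_empty (B : Finset V) (q : V) : SC B q ∅ = HO B q := by
  ext y
  simp only [SC, HO, Set.mem_ofPred_eq, Finset.notMem_empty, if_false, HC]

theorem SC_full (B : Finset V) (q : V) : SC B q B = Bx B q := by
  ext y
  simp only [SC, Bx, Set.mem_ofPred_eq]
  constructor
  · rintro ⟨h1, h2⟩
    refine ⟨h1, fun b hb => ?_⟩
    have := h2 b hb
    rw [if_pos hb] at this
    exact this
  · rintro ⟨h1, h2⟩
    refine ⟨h1, fun b hb => ?_⟩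
    rw [if_pos hb]
    exact h2 b hb

theorem SC_HC {B : Finset V} {q : V} (hq : ∀ b ∈ B, co B q b ≠ 0) {C : Finset V} {y : V}
    (hy : y ∈ SC B q C) {b : V} (hb : b ∈ B) : HC (co B y b) (co B q b) := by
  have := hy.2 b hb
  split_ifs at this with h
  · exact BC_HC (hq b hb) this
  · exact this

theorem pf_BOX (h1 : T_STP) : T_BOX := by
  intro V _ _ Λ ht B q hI hB _ hq0 hfin
  have hht : ∀ y ∈ Sp B, ht y = ∑ b ∈ B, co B y b := by
    intro y hy
    conv_lhs => rw [co_spec hy]
    rw [map_sum]
    apply Finset.sum_congr rfl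
    intro b hb
    rw [map_smul, (hB b hb).2, smul_eq_mul, mul_one]
  have key : ∀ C : Finset V, C ⊆ B →
      (1 - PowerSeries.X) ^ C.card * ser Λ ht (HO B q) = ser Λ ht (SC B q C) := by
    intro C
    induction C using Finset.induction_on with
    | empty =>
      intro _
      rw [Finset.card_empty, pow_zero, one_mul, SC_empty]
    | insert c C hc ih =>
      intro hCB
      have hcB : c ∈ B := hCB (Finset.mem_insert_self c C)
      have hCB' : C ⊆ B := fun b hb => hCB (Finset.mem_insert_of_mem hb)
      rw [Finset.card_insert_of_notMem hc, pow_succ', mul_assoc, ih hCB']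
      have hcSp : c ∈ Sp B := sub_Sp hcB
      have hadd : ∀ x ∈ SC B q C, x + c ∈ SC B q C := by
        intro x hx
        refine ⟨Submodule.add_mem _ hx.1 hcSp, fun b hb => ?_⟩
        have h2 := hx.2 b hb
        rw [co_add hI hx.1 hcSp hb, co_self hI hcB hb]
        by_cases hbc : b = c
        · subst hbc
          rw [if_neg hc, if_pos rfl]
          rw [if_neg hc] at h2
          exact Or.inl (by linarith [HC_nonneg h2])
        · rw [if_neg hbc, add_zero]
          exact h2
      have hnn : ∀ x ∈ SC B q C, 0 ≤ ht x := by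
        intro x hx
        rw [hht x hx.1]
        exact Finset.sum_nonneg (fun b hb => HC_nonneg (SC_HC hq0 hx hb))
      have hfin' : ∀ m : ℕ, {x | x ∈ SC B q C ∧ x ∈ Λ ∧ ht x = (m : ℚ)}.Finite := by
        intro m
        apply (hfin m).subset
        rintro x ⟨hx, h3⟩
        refine ⟨?_, h3⟩
        rw [← SC_empty]
        refine ⟨hx.1, fun b hb => ?_⟩
        rw [if_neg (Finset.notMem_empty b)]
        exact SC_HC hq0 hx hb
      rw [h1 V Λ ht (SC B q C) c (hB c hcB).1 (hB c hcB).2 hnn hadd hfin']
      congr 1
      ext x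
      simp only [Set.mem_ofPred_eq]
      constructor
      · rintro ⟨hx, hxc⟩
        refine ⟨hx.1, fun b hb => ?_⟩
        by_cases hbc : b = c
        · subst hbc
          rw [if_pos (Finset.mem_insert_self b C), BC_iff (hq0 b hb)]
          refine ⟨SC_HC hq0 hx hb, fun h4 => hxc ?_⟩
          refine ⟨Submodule.sub_mem _ hx.1 hcSp, fun d hd => ?_⟩
          rw [co_sub hI hx.1 hcSp hd, co_self hI hb hd]
          by_cases hdb : d = b
          · subst hdb
            rw [if_neg hc, if_pos rfl]
            exact h4
          · rw [if_neg hdb, sub_zero]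
            exact hx.2 d hd
        · have h2 := hx.2 b hb
          by_cases hbC : b ∈ C
          · rw [if_pos hbC] at h2
            rw [if_pos (Finset.mem_insert_of_mem hbC)]
            exact h2
          · rw [if_neg hbC] at h2
            rw [if_neg (by simp [hbc, hbC])]
            exact h2
      · rintro ⟨hx1, hx2⟩
        have hxc := hx2 c hcB
        rw [if_pos (Finset.mem_insert_self c C), BC_iff (hq0 c hcB)] at hxc
        refine ⟨⟨hx1, fun b hb => ?_⟩, ?_⟩
        · by_cases hbc : b = c
          · subst hbc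
            rw [if_neg hc]
            exact hxc.1
          · have h2 := hx2 b hb
            by_cases hbC : b ∈ C
            · rw [if_pos (Finset.mem_insert_of_mem hbC)] at h2
              rw [if_pos hbC]
              exact h2
            · rw [if_neg (by simp [hbc, hbC])] at h2
              rw [if_neg hbC]
              exact h2
        · intro h4
          apply hxc.2
          have h5 := h4.2 c hcB
          rw [if_neg hc, co_sub hI hx1 hcSp hcB, co_self hI hcB hcB, if_pos rfl] at h5
          exact h5
  rw [key B (Finset.Subset.refl B), SC_full]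

end

end Pool.Agent.H65.EH
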